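import Pool.Agent.H475R2.DC_RED
import Pool.Agent.H439DC.DC_REDA
import Pool.Agent.H816R2.DC_REDB
import Pool.Agent.Helper171.DC_REDC
import Pool.Agent.N101.ZP.ModA

/-!
# Points of elliptic curves over the algebraic numbers

The curve is `y² = x³ + a x + b`; we use the coordinate `u = x - e`, where `e` is the first coordinate
of a point of order two.
-/

set_option autoImplicit false
set_option linter.unusedSectionVars false
set_option linter.style.haveILetI false

namespace Pool.Agent.N101.ZE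

open Pool.Agent.H925R3.DC (crv)
open Pool.Agent.N101.ZP

/-- Elliptic curves `y² = x³ + a x + b` over the field of algebraic numbers; the roots of the right
hand side are `e`, `e + al` and `e + be`. -/
structure Cv where
  a : Fa
  b : Fa
  e : Fa
  al : Fa
  be : Fa
  hsum : 3 * e + al + be = 0
  ha : a = e * (e + al) + e * (e + be) + (e + al) * (e + be)
  hb : b = -(e * (e + al) * (e + be))
  hal : al ≠ 0
  hbe : be ≠ 0
  hne : al ≠ be

variable (E : Cv)

/-- The points of `E` over an extension `K` of the field of algebraic numbers. -/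
def Cv.Pt (K : Type) [Field K] [Algebra Fa K] : Type :=
  (crv K (algebraMap Fa K E.a) (algebraMap Fa K E.b)).Point

noncomputable instance instGp (K : Type) [Field K] [Algebra Fa K] : AddCommGroup (E.Pt K) :=
  letI := Classical.decEq K
  inferInstanceAs (AddCommGroup (crv K (algebraMap Fa K E.a) (algebraMap Fa K E.b)).Point)

namespace Cv

section

variable {K : Type} [Field K] [Algebra Fa K]

/-- the elements `al` and `be` -/
noncomputable def A (K : Type) [Field K] [Algebra Fa K] : K := algebraMap Fa K E.al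

/-- the elements `al` and `be` -/
noncomputable def B (K : Type) [Field K] [Algebra Fa K] : K := algebraMap Fa K E.be

theorem A_ne (K : Type) [Field K] [Algebra Fa K] : E.A K ≠ 0 :=
  (map_ne_zero (algebraMap Fa K)).2 E.hal

theorem B_ne (K : Type) [Field K] [Algebra Fa K] : E.B K ≠ 0 :=
  (map_ne_zero (algebraMap Fa K)).2 E.hbe

theorem A_ne_B (K : Type) [Field K] [Algebra Fa K] : E.A K ≠ E.B K := fun h =>
  E.hne ((algebraMap Fa K).injective h)

theorem cube_eq (u : K) : (u + algebraMap Fa K E.e) ^ 3 +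
    algebraMap Fa K E.a * (u + algebraMap Fa K E.e) + algebraMap Fa K E.b =
      u * (u - E.A K) * (u - E.B K) := by
  have h1 : algebraMap Fa K E.a = algebraMap Fa K E.e * (algebraMap Fa K E.e + E.A K) +
      algebraMap Fa K E.e * (algebraMap Fa K E.e + E.B K) +
      (algebraMap Fa K E.e + E.A K) * (algebraMap Fa K E.e + E.B K) := by
    rw [E.ha]
    simp only [map_add, map_mul, A, B]
  have h2 : algebraMap Fa K E.b = -(algebraMap Fa K E.e * (algebraMap Fa K E.e + E.A K) *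
      (algebraMap Fa K E.e + E.B K)) := by
    rw [E.hb]
    simp only [map_add, map_mul, map_neg, A, B]
  have h3 : 3 * algebraMap Fa K E.e + E.A K + E.B K = 0 := by
    have := congrArg (algebraMap Fa K) E.hsum
    rw [map_add, map_add, map_mul, map_zero, map_ofNat] at this
    exact this
  rw [h1, h2]
  linear_combination (u ^ 2 + 2 * u * algebraMap Fa K E.e + (algebraMap Fa K E.e) ^ 2) * h3

theorem disc_ne : 4 * E.a ^ 3 + 27 * E.b ^ 2 ≠ 0 := by
  have h1 : E.be = -(3 * E.e) - E.al := by linear_combination E.hsum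
  have h2 : 4 * E.a ^ 3 + 27 * E.b ^ 2 = -(E.al * E.be * (E.al - E.be)) ^ 2 := by
    rw [E.ha, E.hb, h1]
    ring
  rw [h2]
  exact neg_ne_zero.2 (pow_ne_zero _ (mul_ne_zero (mul_ne_zero E.hal E.hbe)
    (sub_ne_zero.2 E.hne)))

theorem disc_ne' (K : Type) [Field K] [Algebra Fa K] :
    4 * algebraMap Fa K E.a ^ 3 + 27 * algebraMap Fa K E.b ^ 2 ≠ 0 := by
  have h1 := (map_ne_zero (algebraMap Fa K)).2 E.disc_ne
  rw [map_add, map_mul, map_mul, map_pow, map_pow, map_ofNat, map_ofNat] at h1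
  exact h1

theorem two_ne (K : Type) [Field K] [Algebra Fa K] : (2 : K) ≠ 0 := by
  have h1 : (2 : K) = algebraMap Fa K 2 := (map_ofNat _ 2).symm
  rw [h1, Ne, map_eq_zero_iff _ (algebraMap Fa K).injective]
  exact two_ne_zero

theorem ns {x y : K} (h : y ^ 2 = x ^ 3 + algebraMap Fa K E.a * x + algebraMap Fa K E.b) :
    (crv K (algebraMap Fa K E.a) (algebraMap Fa K E.b)).Nonsingular x y :=
  Pool.Agent.H439DC.reda_ns (two_ne K) _ _ x y (E.disc_ne' K) h

/-- the affine point with coordinates `u = x - e` and `y` -/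
noncomputable def pu (u y : K) (h : y ^ 2 = u * (u - E.A K) * (u - E.B K)) : E.Pt K :=
  .some (u + algebraMap Fa K E.e) y (E.ns (by rw [E.cube_eq]; exact h))

theorem pu_ne {u y : K} (h : y ^ 2 = u * (u - E.A K) * (u - E.B K)) : E.pu u y h ≠ 0 := by
  intro h0
  cases h0

/-- the first coordinate -/
noncomputable def uu (P : E.Pt K) : K :=
  match P with
  | .zero => 0
  | .some x _ _ => x - algebraMap Fa K E.e

/-- the second coordinate -/
def yy (P : E.Pt K) : K :=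
  match P with
  | .zero => 0
  | .some _ y _ => y

@[simp] theorem uu_zero : E.uu (0 : E.Pt K) = 0 := rfl

@[simp] theorem yy_zero : E.yy (0 : E.Pt K) = 0 := rfl

@[simp] theorem uu_pu {u y : K} (h : y ^ 2 = u * (u - E.A K) * (u - E.B K)) :
    E.uu (E.pu u y h) = u := by
  change u + algebraMap Fa K E.e - algebraMap Fa K E.e = u
  ring

@[simp] theorem yy_pu {u y : K} (h : y ^ 2 = u * (u - E.A K) * (u - E.B K)) :
    E.yy (E.pu u y h) = y := rfl

theorem eqn {P : E.Pt K} (hP : P ≠ 0) :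
    E.yy P ^ 2 = E.uu P * (E.uu P - E.A K) * (E.uu P - E.B K) := by
  rcases P with _ | ⟨x, y, h⟩
  · exact absurd rfl hP
  · have h1 := (Pool.Agent.H439DC.reda_eq _ _ x y).1 h.1
    have h2 := E.cube_eq (x - algebraMap Fa K E.e)
    rw [sub_add_cancel] at h2
    change y ^ 2 = (x - algebraMap Fa K E.e) * (x - algebraMap Fa K E.e - E.A K) *
      (x - algebraMap Fa K E.e - E.B K)
    rw [← h2]
    exact h1

theorem eqn' (P : E.Pt K) :
    E.yy P ^ 2 = E.uu P * (E.uu P - E.A K) * (E.uu P - E.B K) := by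
  by_cases hP : P = 0
  · rw [hP, uu_zero, yy_zero]
    ring
  · exact E.eqn hP

theorem eq_pu {P : E.Pt K} (hP : P ≠ 0) : P = E.pu (E.uu P) (E.yy P) (E.eqn hP) := by
  rcases P with _ | ⟨x, y, h⟩
  · exact absurd rfl hP
  · have h1 : x = x - algebraMap Fa K E.e + algebraMap Fa K E.e := by ring
    exact Pool.Agent.H475R2.DC_RED.some_congr _ _ h1 rfl

theorem pu_congr {u y u' y' : K} (h : y ^ 2 = u * (u - E.A K) * (u - E.B K))
    (h' : y' ^ 2 = u' * (u' - E.A K) * (u' - E.B K)) (hu : u = u') (hy : y = y') :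
    E.pu u y h = E.pu u' y' h' := by
  subst hu
  subst hy
  rfl

theorem ext {P Q : E.Pt K} (hP : P ≠ 0) (hQ : Q ≠ 0) (hu : E.uu P = E.uu Q)
    (hy : E.yy P = E.yy Q) : P = Q := by
  rw [E.eq_pu hP, E.eq_pu hQ]
  exact E.pu_congr _ _ hu hy

theorem neg_pu {u y : K} (h : y ^ 2 = u * (u - E.A K) * (u - E.B K)) :
    -(E.pu u y h) = E.pu u (-y) (by rw [neg_sq]; exact h) := by
  have h1 : -(E.pu u y h) = (.some (u + algebraMap Fa K E.e)
    ((crv K (algebraMap Fa K E.a) (algebraMap Fa K E.b)).negY (u + algebraMap Fa K E.e) y)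
    ((WeierstrassCurve.Affine.nonsingular_neg ..).mpr (E.ns (by rw [E.cube_eq]; exact h))) :
      (crv K (algebraMap Fa K E.a) (algebraMap Fa K E.b)).Point) := rfl
  rw [h1]
  exact Pool.Agent.H475R2.DC_RED.some_congr _ _ rfl (Pool.Agent.H475R2.DC_RED.negY_crv _ _ _ _)

theorem uu_neg (P : E.Pt K) : E.uu (-P) = E.uu P := by
  by_cases hP : P = 0
  · rw [hP, neg_zero]
  · conv_lhs => rw [E.eq_pu hP, E.neg_pu, uu_pu]

theorem yy_neg (P : E.Pt K) : E.yy (-P) = -E.yy P := by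
  by_cases hP : P = 0
  · rw [hP, neg_zero, yy_zero, neg_zero]
  · conv_lhs => rw [E.eq_pu hP, E.neg_pu, yy_pu]

theorem eq_or_neg {P Q : E.Pt K} (hP : P ≠ 0) (hQ : Q ≠ 0) (h : E.uu P = E.uu Q) :
    P = Q ∨ P = -Q := by
  have h1 := E.eqn hP
  have h2 := E.eqn hQ
  rw [h, ← h2] at h1
  rcases sq_eq_sq_iff_eq_or_eq_neg.1 h1 with h3 | h3
  · exact Or.inl (E.ext hP hQ h h3)
  · refine Or.inr (E.ext hP (neg_ne_zero.2 hQ) ?_ ?_)
    · rw [h, uu_neg]
    · rw [h3, yy_neg]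

/-- the addition law -/
theorem add_pu {u₁ y₁ u₂ y₂ l u₃ y₃ : K} (h₁ : y₁ ^ 2 = u₁ * (u₁ - E.A K) * (u₁ - E.B K))
    (h₂ : y₂ ^ 2 = u₂ * (u₂ - E.A K) * (u₂ - E.B K)) (hne : ¬ (u₁ = u₂ ∧ y₁ = -y₂))
    (hl : l * (u₁ - u₂) = y₁ - y₂)
    (hl' : l * (y₁ + y₂) = u₁ ^ 2 + u₁ * u₂ + u₂ ^ 2 - (E.A K + E.B K) * (u₁ + u₂) + E.A K * E.B K)
    (hu : u₃ = l ^ 2 - u₁ - u₂ + E.A K + E.B K) (hy : y₃ = -(l * (u₃ - u₁) + y₁)) :
    ∃ h₃, E.pu u₁ y₁ h₁ + E.pu u₂ y₂ h₂ = E.pu u₃ y₃ h₃ := by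
  letI := Classical.decEq K
  have e3 : 3 * algebraMap Fa K E.e + E.A K + E.B K = 0 := by
    have := congrArg (algebraMap Fa K) E.hsum
    rw [map_add, map_add, map_mul, map_zero, map_ofNat] at this
    exact this
  have ea : algebraMap Fa K E.a = algebraMap Fa K E.e * (algebraMap Fa K E.e + E.A K) +
      algebraMap Fa K E.e * (algebraMap Fa K E.e + E.B K) +
      (algebraMap Fa K E.e + E.A K) * (algebraMap Fa K E.e + E.B K) := by
    rw [E.ha]
    simp only [map_add, map_mul, A, B]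
  have n₁ := E.ns (K := K) (x := u₁ + algebraMap Fa K E.e) (y := y₁) (by rw [E.cube_eq]; exact h₁)
  have n₂ := E.ns (K := K) (x := u₂ + algebraMap Fa K E.e) (y := y₂) (by rw [E.cube_eq]; exact h₂)
  have hne' : ¬ (u₁ + algebraMap Fa K E.e = u₂ + algebraMap Fa K E.e ∧ y₁ = -y₂) := by
    rintro ⟨h4, h5⟩
    exact hne ⟨add_right_cancel h4, h5⟩
  obtain ⟨s1, s2⟩ := Pool.Agent.H816R2.DCREDB.slope_rel n₁ n₂ hne'
  obtain ⟨s, hs⟩ : ∃ s, s = (crv K (algebraMap Fa K E.a) (algebraMap Fa K E.b)).slope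
    (u₁ + algebraMap Fa K E.e) (u₂ + algebraMap Fa K E.e) y₁ y₂ := ⟨_, rfl⟩
  rw [← hs] at s1 s2
  have hls : l = s := by
    by_cases h4 : u₁ = u₂
    · have h5 : y₁ + y₂ ≠ 0 := by
        intro h5
        exact hne ⟨h4, eq_neg_of_add_eq_zero_left h5⟩
      apply mul_right_cancel₀ h5
      rw [hl', s2, ea]
      linear_combination (-(u₁ + u₂) - 2 * algebraMap Fa K E.e) * e3
    · apply mul_right_cancel₀ (sub_ne_zero.2 h4)
      rw [hl]
      linear_combination -s1
  have hx3 : u₃ + algebraMap Fa K E.e = l ^ 2 - (u₁ + algebraMap Fa K E.e) -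
      (u₂ + algebraMap Fa K E.e) := by
    rw [hu]
    linear_combination e3
  have hy3 : y₃ = -(l * (u₃ + algebraMap Fa K E.e - (u₁ + algebraMap Fa K E.e)) + y₁) := by
    rw [hy]
    ring
  obtain ⟨n₃, h⟩ := Pool.Agent.H439DC.reda_add (algebraMap Fa K E.a) (algebraMap Fa K E.b) _ y₁ _ y₂ l
    (u₃ + algebraMap Fa K E.e) y₃ n₁ n₂ hne' (hls.trans hs) hx3 hy3
  have h3 : y₃ ^ 2 = u₃ * (u₃ - E.A K) * (u₃ - E.B K) := by
    rw [← E.cube_eq]
    exact (Pool.Agent.H439DC.reda_eq _ _ _ _).1 n₃.1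
  exact ⟨h3, h⟩

/-- addition of points with different first coordinates -/
theorem add_of_ne {u₁ y₁ u₂ y₂ l u₃ y₃ : K} (h₁ : y₁ ^ 2 = u₁ * (u₁ - E.A K) * (u₁ - E.B K))
    (h₂ : y₂ ^ 2 = u₂ * (u₂ - E.A K) * (u₂ - E.B K)) (hne : u₁ ≠ u₂)
    (hl : l * (u₁ - u₂) = y₁ - y₂)
    (hu : u₃ = l ^ 2 - u₁ - u₂ + E.A K + E.B K) (hy : y₃ = -(l * (u₃ - u₁) + y₁)) :
    ∃ h₃, E.pu u₁ y₁ h₁ + E.pu u₂ y₂ h₂ = E.pu u₃ y₃ h₃ := by
  refine E.add_pu h₁ h₂ (fun h => hne h.1) hl ?_ hu hy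
  apply mul_right_cancel₀ (sub_ne_zero.2 hne)
  linear_combination (y₁ + y₂) * hl + h₁ - h₂

end

end Cv

end Pool.Agent.N101.ZE
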