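import Pool.Agent.N101.ZE.Rk

/-!
# The rank theory of the products of powers of an elliptic curve and tori
-/

set_option autoImplicit false
set_option linter.unusedSectionVars false
set_option linter.style.haveILetI false

namespace Pool.Agent.N101.ZE

open Pool.Agent.N101.ZP
open Pool.Agent.R948 (mon rel dr relProj dr_sum le_dr_sum rank_ext dr_le_card td cp un Spec)

variable (E : Cv)

namespace Cv

section

variable {K L : Type} [Field K] [Field L] [Algebra Fa K] [Algebra Fa L] {ι κ : Type} [Fintype ι]
  [Fintype κ]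

/-- the rank -/
noncomputable def erk (s : ι → Bool) (p : ι → K) : ℕ :=
  rkt (fun i => E.eu (s i) (p i)) + rkt (fun i => tu (s i) (p i))

theorem erk_cut (s : ι → Bool) (p : ι → K) (p' : ι → L) (h : Sp Fa p p')
    (hp : Nz (fun i => s i = true) p') (a b : ι) (hs : s a = s b) (hab : p a ≠ p b)
    (hab' : p' a = p' b) : E.erk s p' + 1 ≤ E.erk s p := by
  classical
  obtain ⟨k, i1, i2, Q, g1, g2, g3⟩ := E.exists_spec' s h
  have h1 : rkt (fun i => E.eu (s i) (p' i)) ≤ rkt (fun i => E.eu (s i) (p i)) := by
    have h3 := rkt_spec _ _ g1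
    have h4 : rkt (fun i => E.mul (Q i)) = rkt (fun i => E.eu (s i) (p' i)) := g2 ι id
    omega
  have h2 := rkt_spec _ _ (h.spec hp).rel_le
  rw [erk, erk]
  by_cases hb : s b = false
  · have h3 := g3 a b (hs.trans hb) hb hab hab'
    have h4 : rkt (fun i => E.mul (Q i)) = rkt (fun i => E.eu (s i) (p' i)) := g2 ι id
    omega
  · have hb' : s b = true := by simpa using hb
    have ha' : s a = true := hs.trans hb'
    have hp' := Nz.of_sp h hp
    have e1 : ∀ {M : Type} [Field M] (q : ι → M), Nz (fun i => s i = true) q →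
        ((mon (fun i => tu (s i) (q i)) (Pi.single a 1 - Pi.single b 1) : Mˣ) : M) =
          q a / q b := by
      intro M _ q hq
      rw [sub_eq_add_neg, R948.mon_add, R948.mon_neg, mon_single, mon_single, Units.val_mul,
        Units.val_inv_eq_inv_val, tu_true ha' (hq a ha'), tu_true hb' (hq b hb'), div_eq_mul_inv]
    have h3 : rkt (fun i => tu (s i) (p' i)) + 1 ≤ rkt (fun i => tu (s i) (p i)) := by
      have h4 : dr (fun i => tu (s i) (p i)) < dr (fun i => tu (s i) (p' i)) := by
        refine Submodule.finrank_lt_finrank_of_lt (lt_of_le_of_ne (h.spec hp).rel_le fun h5 => ?_)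
        have h6 : (fun i => ((Pi.single a 1 - Pi.single b 1 : ι → ℤ) i : ℚ)) ∈
            rel (fun i => tu (s i) (p' i)) := by
          rw [R948.mem_rel_int]
          refine ⟨1, one_pos, ?_⟩
          rw [pow_one]
          apply Units.ext
          rw [e1 p' hp, hab', div_self (hp b hb'), Units.val_one]
        rw [← h5, R948.mem_rel_int] at h6
        obtain ⟨N, hN, h7⟩ := h6
        have h8 : (p a / p b) ^ N = 1 := by
          rw [← e1 p hp', ← Units.val_pow_eq_pow_val, h7, Units.val_one]
        obtain ⟨ξ, -, hξ⟩ := R948.root_mem (F := Fa) hN h8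
        have h9 := (h.spec hp).mon (b := Pi.single a 1 - Pi.single b 1) (ξ := ξ)
          ((e1 p hp').trans hξ)
        rw [e1 p' hp, hab', div_self (hp b hb')] at h9
        have h10 : ξ = 1 := by
          apply (algebraMap Fa L).injective
          rw [← h9, map_one]
        rw [h10, map_one, div_eq_one_iff_eq (hp' b hb')] at hξ
        exact hab hξ
      have h5 := rkt_add_dr (fun i => tu (s i) (p i))
      have h6 := rkt_add_dr (fun i => tu (s i) (p' i))
      omega
    omega

end

/-- the rank theory: the sort `false` is that of the coordinates `u (P)` of points `P` of the elliptic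
curve, the sort `true` that of the coordinates on `G_m` -/
noncomputable def RTh : RT Fa where
  S := Bool
  nz b := b = true
  rk s p := E.erk s p
  rk_card s p := by
    classical
    have h1 := rkt_le_filter (fun i => E.eu (s i) (p i)) (fun i => ¬ s i = true)
      (fun i hi => E.eu_true (not_not.1 hi) _)
    have h2 := rkt_le_filter (fun i => tu (s i) (p i)) (fun i => s i = true)
      (fun i hi => tu_false (by simpa using hi) _)
    have h3 := Finset.card_filter_add_card_filter_not (s := (Finset.univ : Finset _))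
      (p := fun i => s i = true)
    rw [Finset.card_univ] at h3
    rw [erk]
    convert (add_le_add h1 h2).trans _ using 1
    rw [add_comm]
    convert h3.le
  rk_comp s p f := add_le_add (rkt_comp (fun i => E.eu (s i) (p i)) f)
    (rkt_comp (fun i => tu (s i) (p i)) f)
  rk_add s p := by
    have h1 := rkt_add (fun i => E.eu (s i) (p i))
    have h2 := rkt_add (fun i => tu (s i) (p i))
    simp only [erk]
    omega
  rk_spec {K L} _ _ _ _ {ι} _ s p p' h hn := by
    obtain ⟨k, i1, i2, Q, g1, g2, g3⟩ := E.exists_spec' s h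
    have h3 := rkt_spec _ _ g1
    have h4 : rkt (fun i => E.mul (Q i)) = rkt (fun i => E.eu (s i) (p' i)) := g2 ι id
    have h2 := rkt_spec _ _ (h.spec hn).rel_le
    simp only [erk]
    omega
  rk_rel {K L} _ _ _ _ {ι κ} _ _ s p p' h hn := by
    obtain ⟨k, i1, i2, Q, g1, g2, g3⟩ := E.exists_spec' s h
    have h1 := rkt_rel _ _ g1
    have h3 : rkt (fun i => E.mul (Q i)) = rkt (fun i => E.eu (s i) (p' i)) := g2 (ι ⊕ κ) id
    have h4 : rkt (fun i => E.mul (Q (Sum.inl i))) =
      rkt (fun i => E.eu (s (Sum.inl i)) (p' (Sum.inl i))) := g2 ι Sum.inl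
    have h2 := rkt_rel _ _ (h.spec hn).rel_le
    simp only [erk]
    omega
  rk_ext {K} _ _ {ι κ} _ _ s p hp := by
    classical
    obtain ⟨J₁, h1, h2⟩ := rkt_ext (fun i => E.eu (s i) (p i))
    obtain ⟨J₂, h3, h4⟩ := rkt_ext (fun i => tu (s i) (p i))
    refine ⟨J₁ ∪ J₂, ?_, fun j => ?_⟩
    · have h5 := Finset.card_union_le J₁ J₂
      simp only [erk]
      omega
    · have hmem : ∀ i, p (Sum.inl i) ∈ Algebra.adjoin Fa (Set.range (fun i => p (Sum.inl i)) ∪
          (fun i => p (Sum.inr i)) '' ((J₁ ∪ J₂ : Finset κ) : Set κ)) := fun i =>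
        Algebra.subset_adjoin (Or.inl ⟨i, rfl⟩)
      have hmem2 : ∀ i ∈ J₁ ∪ J₂, p (Sum.inr i) ∈ Algebra.adjoin Fa
          (Set.range (fun i => p (Sum.inl i)) ∪
            (fun i => p (Sum.inr i)) '' ((J₁ ∪ J₂ : Finset κ) : Set κ)) := fun i hi =>
        Algebra.subset_adjoin (Or.inr ⟨i, hi, rfl⟩)
      by_cases hs : s (Sum.inr j) = true
      · obtain ⟨N, hN, c, hc⟩ := h4 j
        have h5 := R948.alg_of_zpow (F := Fa) _ _ N hN c hc
        rw [tu_true hs (hp _ hs)] at h5
        refine h5.adjoin_of_forall_isAlgebraic ?_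
        rintro x ⟨⟨i | i, rfl⟩, -⟩
        · by_cases hi : s (Sum.inl i) = true
          · have : un (Sum.elim (fun i => tu (s (Sum.inl i)) (p (Sum.inl i)))
              (fun j : J₂ => tu (s (Sum.inr j)) (p (Sum.inr j)))) (Sum.inl i) =
                p (Sum.inl i) := tu_true hi (hp _ hi)
            rw [this]
            exact isAlgebraic_algebraMap (A := K) (⟨_, hmem i⟩ : Algebra.adjoin Fa _)
          · have : un (Sum.elim (fun i => tu (s (Sum.inl i)) (p (Sum.inl i)))
              (fun j : J₂ => tu (s (Sum.inr j)) (p (Sum.inr j)))) (Sum.inl i) = 1 := by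
              rw [un, Sum.elim_inl, tu_false (by simpa using hi), Units.val_one]
            rw [this]
            exact isAlgebraic_one
        · by_cases hi : s (Sum.inr (i : κ)) = true
          · have : un (Sum.elim (fun i => tu (s (Sum.inl i)) (p (Sum.inl i)))
              (fun j : J₂ => tu (s (Sum.inr j)) (p (Sum.inr j)))) (Sum.inr i) =
                p (Sum.inr (i : κ)) := tu_true hi (hp _ hi)
            rw [this]
            exact isAlgebraic_algebraMap (A := K)
              (⟨_, hmem2 i (Finset.mem_union_right _ i.2)⟩ : Algebra.adjoin Fa _)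
          · have : un (Sum.elim (fun i => tu (s (Sum.inl i)) (p (Sum.inl i)))
              (fun j : J₂ => tu (s (Sum.inr j)) (p (Sum.inr j)))) (Sum.inr i) = 1 := by
              rw [un, Sum.elim_inr, tu_false (by simpa using hi), Units.val_one]
            rw [this]
            exact isAlgebraic_one
      · have hs' : s (Sum.inr j) = false := by simpa using hs
        obtain ⟨N, hN, c, hc⟩ := h2 j
        refine E.alg_of_mon (ι := ι ⊕ J₁) (Sum.elim (fun i => s (Sum.inl i))
          (fun j => s (Sum.inr (j : κ)))) (Sum.elim (fun i => p (Sum.inl i))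
            (fun j => p (Sum.inr (j : κ)))) _ ?_ _ N hN c ?_
        · rintro (i | i) hi
          · exact Or.inl ⟨i, rfl⟩
          · exact Or.inr ⟨i, Finset.mem_union_left _ i.2, rfl⟩
        · have e1 : E.mul (E.lift (p (Sum.inr j))) = E.eu (s (Sum.inr j)) (p (Sum.inr j)) :=
            (E.eu_false hs' _).symm
          have e2 : (fun i => E.eu ((Sum.elim (fun i => s (Sum.inl i))
            (fun j => s (Sum.inr (j : κ))) : ι ⊕ J₁ → Bool) i) ((Sum.elim (fun i => p (Sum.inl i))
            (fun j => p (Sum.inr (j : κ))) : ι ⊕ J₁ → K) i)) =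
              Sum.elim (fun i => E.eu (s (Sum.inl i)) (p (Sum.inl i)))
                (fun j : J₁ => E.eu (s (Sum.inr j)) (p (Sum.inr j))) := by
            funext i
            rcases i with i | i <;> rfl
          rw [e1, e2]
          exact hc
  rk_cut s p p' h hn a b hs hab hab' := E.erk_cut s p p' h hn a b hs hab hab'

end Cv

end Pool.Agent.N101.ZE
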