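import Pool.Agent.N101.ZE.Rk

/-!
# Specialisations of linear relations between points
-/

set_option autoImplicit false
set_option linter.unusedSectionVars false
set_option linter.style.haveILetI false

namespace Pool.Agent.N101.ZE.Cv

open MvPolynomial
open Pool.Agent.N101.ZP
open Pool.Agent.R948 (mon rel dr td)

variable (E : Cv)

section

variable {A K L : Type} [Field A] [Field K] [Field L] [Algebra Fa A] [Algebra A K] [Algebra Fa K]
  [IsScalarTower Fa A K] [Algebra A L] [Algebra Fa L] [IsScalarTower Fa A L] {ι κ : Type}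

theorem mp_bc (φ : K →ₐ[A] L) (c : E.Pt A) :
    E.mp (φ.restrictScalars Fa) (E.bc A K c) = E.bc A L c := by
  by_cases hc : c = 0
  · rw [hc, map_zero, map_zero, map_zero]
  · have h1 := E.mp_spec (IsScalarTower.toAlgHom Fa A K) hc
    have h2 := E.mp_spec (IsScalarTower.toAlgHom Fa A L) hc
    have h3 := E.mp_spec (φ.restrictScalars Fa) h1.1
    refine E.ext h3.1 h2.1 ?_ ?_
    · refine h3.2.1.trans (Eq.trans ?_ h2.2.1.symm)
      rw [h1.2.1]
      exact φ.commutes _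
    · refine h3.2.2.trans (Eq.trans ?_ h2.2.2.symm)
      rw [h1.2.2]
      exact φ.commutes _

/-- the coordinates of a family of points -/
noncomputable def cc (p : ι → E.Pt K) : ι ⊕ ι → K :=
  Sum.elim (fun i => E.uu (p i)) (fun i => E.yy (p i))

variable [Fintype ι]

/-- relations depend only on the ideal of the coordinates -/
theorem lin_iso (p : ι → E.Pt K) (q : ι → E.Pt L) (hp : ∀ i, p i ≠ 0) (hq : ∀ i, q i ≠ 0)
    (h : Sp A (E.cc p) (E.cc q)) (h' : Sp A (E.cc q) (E.cc p)) (a : ι → ℤ) (c : E.Pt A)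
    (hr : ∑ i, a i • p i + E.bc A K c = 0) : ∑ i, a i • q i + E.bc A L c = 0 := by
  obtain ⟨P, hP⟩ : ∃ P : PP A (ι ⊕ ι), P = PP.ofPt A (E.cc p) := ⟨_, rfl⟩
  have h1 : ∀ f, aeval (E.cc p) f = 0 ↔ f ∈ P.I := by
    intro f
    rw [hP]
    exact Iff.rfl
  have h2 : ∀ f, aeval (E.cc q) f = 0 ↔ f ∈ P.I := by
    intro f
    rw [← h1]
    exact ⟨fun hf => h' f hf, fun hf => h f hf⟩
  obtain ⟨φ₁, hφ₁⟩ := exists_fldHom' P (E.cc p) h1
  obtain ⟨φ₂, hφ₂⟩ := exists_fldHom' P (E.cc q) h2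
  have h3 : ∀ i, ∃ s : E.Pt P.fld, E.mp (φ₁.restrictScalars Fa) s = p i := fun i =>
    E.mem_range_mp (φ₁.restrictScalars Fa) (p i) (P.pt (Sum.inl i)) (P.pt (Sum.inr i))
      (hφ₁ (Sum.inl i)).symm (hφ₁ (Sum.inr i)).symm
  choose s hs using h3
  have hs0 : ∀ i, s i ≠ 0 := by
    intro i h0
    apply hp i
    rw [← hs, h0, map_zero]
  have hu : ∀ i, E.uu (s i) = P.pt (Sum.inl i) := by
    intro i
    apply φ₁.injective
    change φ₁ (E.uu (s i)) = φ₁ (P.pt (Sum.inl i))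
    rw [hφ₁]
    have h4 := (E.mp_spec (φ₁.restrictScalars Fa) (hs0 i)).2.1
    rw [hs] at h4
    exact h4.symm
  have hy : ∀ i, E.yy (s i) = P.pt (Sum.inr i) := by
    intro i
    apply φ₁.injective
    change φ₁ (E.yy (s i)) = φ₁ (P.pt (Sum.inr i))
    rw [hφ₁]
    have h4 := (E.mp_spec (φ₁.restrictScalars Fa) (hs0 i)).2.2
    rw [hs] at h4
    exact h4.symm
  have hq' : ∀ i, E.mp (φ₂.restrictScalars Fa) (s i) = q i := by
    intro i
    obtain ⟨h4, h5, h6⟩ := E.mp_spec (φ₂.restrictScalars Fa) (hs0 i)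
    refine E.ext h4 (hq i) ?_ ?_
    · rw [h5, hu]
      exact hφ₂ (Sum.inl i)
    · rw [h6, hy]
      exact hφ₂ (Sum.inr i)
  have h4 : ∑ i, a i • s i + E.bc A P.fld c = 0 := by
    apply E.mp_inj (φ₁.restrictScalars Fa)
    rw [map_add, map_sum, map_zero, E.mp_bc]
    simp only [map_zsmul, hs]
    exact hr
  have h5 := congrArg (E.mp (φ₂.restrictScalars Fa)) h4
  rw [map_add, map_sum, map_zero, E.mp_bc] at h5
  simp only [map_zsmul, hq'] at h5
  exact h5

/-- relations specialise -/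
theorem lin_sp (p : ι → E.Pt K) (q : ι → E.Pt L) (hp : ∀ i, p i ≠ 0) (hq : ∀ i, q i ≠ 0)
    (h : Sp A (E.cc p) (E.cc q)) (a : ι → ℤ) (c : E.Pt A)
    (hr : ∑ i, a i • p i + E.bc A K c = 0) : ∑ i, a i • q i + E.bc A L c = 0 := by
  obtain ⟨k, i1, i2, i3, i4, π, h1, r, h2, h3, h4⟩ := exists_place _ _ h
  have h5 : ∀ i, E.red π (p i) ≠ 0 ∧ E.uu (E.red π (p i)) = r (Sum.inl i) ∧
      E.yy (E.red π (p i)) = r (Sum.inr i) := by
    intro i
    obtain ⟨g1, g2⟩ := h2 (Sum.inl i)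
    obtain ⟨g3, g4⟩ := h2 (Sum.inr i)
    obtain ⟨g5, g6, g7, g8⟩ := E.red_mem π (hp i) g1
    exact ⟨g5, g6.trans g2, g8.trans g4⟩
  have h6 : E.cc (fun i => E.red π (p i)) = r := by
    funext j
    rcases j with i | i
    · exact (h5 i).2.1
    · exact (h5 i).2.2
  refine E.lin_iso (fun i => E.red π (p i)) q (fun i => (h5 i).1) hq (by rw [h6]; exact h3)
    (by rw [h6]; exact h4) a c ?_
  have h7 := congrArg (E.red π) hr
  rw [map_add, map_sum, map_zero, E.red_bc π h1] at h7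
  simp only [map_zsmul] at h7
  exact h7

open scoped IntermediateField.algebraAdjoinAdjoin in
/-- combinations of points with coordinates in a field -/
theorem alg_of_lin (S : Set K) (x : ι → E.Pt K) (hS : ∀ i, E.uu (x i) ∈ S)
    (hS' : ∀ i, E.yy (x i) ∈ S) (b : ι → ℤ) (c : E.Pt A) :
    IsAlgebraic (Algebra.adjoin A S) (E.uu (∑ i, b i • x i + E.bc A K c)) := by
  let F₁ : IntermediateField A K := IntermediateField.adjoin A S
  have htow : IsScalarTower Fa F₁ K := IsScalarTower.of_algebraMap_eq fun _ => rfl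
  have htow' : IsScalarTower Fa A F₁ := IsScalarTower.of_algebraMap_eq fun z => by
    apply Subtype.ext
    exact IsScalarTower.algebraMap_apply Fa A K z
  have h1 : ∀ i, x i ∈ (E.bc F₁ K).range := fun i =>
    E.mem_range_mp (IsScalarTower.toAlgHom Fa F₁ K) (x i)
      ⟨_, IntermediateField.subset_adjoin _ _ (hS i)⟩
      ⟨_, IntermediateField.subset_adjoin _ _ (hS' i)⟩ rfl rfl
  have h2 : E.bc A K c ∈ (E.bc F₁ K).range := by
    refine ⟨E.bc A F₁ c, ?_⟩
    exact E.mp_bc (A := A) (IsScalarTower.toAlgHom A F₁ K) c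
  have h3 : ∑ i, b i • x i + E.bc A K c ∈ (E.bc F₁ K).range :=
    add_mem (sum_mem fun i _ => zsmul_mem (h1 i) _) h2
  obtain ⟨R, hR⟩ := h3
  rw [← hR, bc, E.uu_mp]
  have h4 : IsAlgebraic F₁ ((IsScalarTower.toAlgHom Fa F₁ K) (E.uu R)) :=
    isAlgebraic_algebraMap (A := K) (E.uu R)
  exact (IsFractionRing.isAlgebraic_iff (Algebra.adjoin A S) F₁ K).2 h4

end

/-! ### the parametrisation of the solutions of linear equations -/

section

variable {G : Type} [AddCommGroup G] {ι κ : Type} [Fintype ι] [Fintype κ] [DecidableEq ι]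

theorem lin_par (π : (ι → ℤ) →ₗ[ℤ] (κ → ℤ)) (Q : κ → G) (a : ι → ℤ) :
    ∑ i, a i • ∑ j, π (Pi.single i 1) j • Q j = ∑ j, π a j • Q j := by
  have h1 : a = ∑ i, a i • (Pi.single i 1 : ι → ℤ) := by
    funext j
    simp [Finset.sum_apply, Pi.single_apply]
  have h2 : π a = ∑ i, a i • π (Pi.single i 1) := by
    conv_lhs => rw [h1]
    rw [map_sum]
    simp only [map_smul]
  have h3 : ∀ j, π a j • Q j = ∑ i, a i • π (Pi.single i 1) j • Q j := by
    intro j
    rw [h2, Finset.sum_apply, Finset.sum_smul]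
    refine Finset.sum_congr rfl fun i _ => ?_
    rw [Pi.smul_apply, smul_eq_mul, mul_smul]
  rw [Finset.sum_congr rfl fun j _ => h3 j, Finset.sum_comm]
  refine Finset.sum_congr rfl fun i _ => ?_
  rw [Finset.smul_sum]

theorem lin_res [DecidableEq κ] (π : (ι → ℤ) →ₗ[ℤ] (κ → ℤ)) (b : κ → (ι → ℤ))
    (hb : ∀ j, π (b j) = Pi.single j 1) (x : ι → G) (i : ι) :
    ∃ r : ι → ℤ, π r = 0 ∧
      ∑ k, r k • x k = x i - ∑ j, π (Pi.single i 1) j • ∑ k, b j k • x k := by
  refine ⟨Pi.single i 1 - ∑ j, π (Pi.single i 1) j • b j, ?_, ?_⟩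
  · rw [map_sub, map_sum]
    simp only [map_smul, hb]
    rw [sub_eq_zero]
    funext j'
    simp [Finset.sum_apply, Pi.single_apply]
  · have h4 : ∀ k, (Pi.single i 1 - ∑ j, π (Pi.single i 1) j • b j : ι → ℤ) k • x k =
        (Pi.single i 1 : ι → ℤ) k • x k - ∑ j, π (Pi.single i 1) j • b j k • x k := by
      intro k
      rw [Pi.sub_apply, sub_smul, Finset.sum_apply, Finset.sum_smul]
      congr 1
      refine Finset.sum_congr rfl fun j _ => ?_
      rw [Pi.smul_apply, smul_eq_mul, mul_smul]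
    rw [Finset.sum_congr rfl fun k _ => h4 k, Finset.sum_sub_distrib, Finset.sum_comm]
    congr 1
    · rw [Finset.sum_eq_single i]
      · rw [Pi.single_eq_same, one_smul]
      · intro k _ hk
        rw [Pi.single_eq_of_ne hk, zero_smul]
      · intro h
        exact absurd (Finset.mem_univ i) h
    · refine Finset.sum_congr rfl fun j _ => ?_
      rw [Finset.smul_sum]

theorem lin_par' [DecidableEq κ] (π : (ι → ℤ) →ₗ[ℤ] (κ → ℤ)) (b : κ → (ι → ℤ))
    (hb : ∀ j, π (b j) = Pi.single j 1) (x : ι → G)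
    (hx : ∀ a : ι → ℤ, π a = 0 → ∑ i, a i • x i = 0) (i : ι) :
    ∑ j, π (Pi.single i 1) j • ∑ k, b j k • x k = x i := by
  obtain ⟨r, h1, h2⟩ := lin_res π b hb x i
  rw [hx r h1, eq_comm, sub_eq_zero] at h2
  exact h2.symm

end

end Pool.Agent.N101.ZE.Cv
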