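import Pool.Agent.N101.ZE.Curve

/-!
# Points of order two and duplication
-/

set_option autoImplicit false
set_option linter.unusedSectionVars false
set_option linter.style.haveILetI false

namespace Pool.Agent.N101.ZE

open Pool.Agent.N101.ZP

variable (E : Cv)

namespace Cv

section

variable (K : Type) [Field K] [Algebra Fa K]

/-- the point of order two with `u = 0` -/
noncomputable def T : E.Pt K := E.pu 0 0 (by ring)

/-- the point of order two with `u = al` -/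
noncomputable def T₁ : E.Pt K := E.pu (E.A K) 0 (by ring)

theorem T_ne : E.T K ≠ 0 := E.pu_ne _

theorem T₁_ne : E.T₁ K ≠ 0 := E.pu_ne _

theorem uu_T : E.uu (E.T K) = 0 := E.uu_pu _

theorem uu_T₁ : E.uu (E.T₁ K) = E.A K := E.uu_pu _

theorem yy_T : E.yy (E.T K) = 0 := E.yy_pu _

theorem yy_T₁ : E.yy (E.T₁ K) = 0 := E.yy_pu _

variable {K}

theorem add_self_of_yy {P : E.Pt K} (h : E.yy P = 0) : P + P = 0 := by
  by_cases hP : P = 0
  · rw [hP, add_zero]
  · have h1 : P = -P := E.ext hP (neg_ne_zero.2 hP) (E.uu_neg P).symm (by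
      rw [E.yy_neg, h, neg_zero])
    rw [← eq_neg_iff_add_eq_zero]
    exact h1

theorem T_add_T : E.T K + E.T K = 0 := E.add_self_of_yy (E.yy_T K)

theorem T₁_add_T₁ : E.T₁ K + E.T₁ K = 0 := E.add_self_of_yy (E.yy_T₁ K)

/-- translation by the first point of order two -/
theorem add_T {P : E.Pt K} (hP : P ≠ 0) (hu : E.uu P ≠ 0) :
    P + E.T K ≠ 0 ∧ E.uu (P + E.T K) = E.A K * E.B K / E.uu P ∧
      E.yy (P + E.T K) = -(E.A K * E.B K * E.yy P / E.uu P ^ 2) := by
  have h1 := E.eqn hP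
  obtain ⟨h3, h4⟩ := E.add_of_ne (l := E.yy P / E.uu P) (u₃ := E.A K * E.B K / E.uu P)
    (y₃ := -(E.A K * E.B K * E.yy P / E.uu P ^ 2)) (E.eqn hP) (E.eqn (E.T_ne K))
    (by rw [E.uu_T]; exact hu)
    (by rw [E.uu_T, E.yy_T, sub_zero, sub_zero]; exact div_mul_cancel₀ _ hu) (by
      rw [E.uu_T]
      field_simp
      rw [h1]
      ring) (by
      field_simp
      ring)
  rw [← E.eq_pu hP, ← E.eq_pu (E.T_ne K)] at h4
  rw [h4]
  exact ⟨E.pu_ne _, E.uu_pu _, E.yy_pu _⟩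

/-- translation by the second point of order two -/
theorem add_T₁ {P : E.Pt K} (hP : P ≠ 0) (hu : E.uu P ≠ E.A K) :
    P + E.T₁ K ≠ 0 ∧ E.uu (P + E.T₁ K) = E.A K * (E.uu P - E.B K) / (E.uu P - E.A K) := by
  have h1 := E.eqn hP
  have h2 : E.uu P - E.A K ≠ 0 := sub_ne_zero.2 hu
  obtain ⟨h3, h4⟩ := E.add_of_ne (l := E.yy P / (E.uu P - E.A K))
    (u₃ := E.A K * (E.uu P - E.B K) / (E.uu P - E.A K))
    (y₃ := -(E.yy P / (E.uu P - E.A K) * (E.A K * (E.uu P - E.B K) / (E.uu P - E.A K) - E.uu P) +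
      E.yy P)) (E.eqn hP) (E.eqn (E.T₁_ne K))
    (by rw [E.uu_T₁]; exact hu)
    (by rw [E.uu_T₁, E.yy_T₁]; field_simp; ring) (by
      rw [E.uu_T₁]
      field_simp
      rw [h1]
      ring) rfl
  rw [← E.eq_pu hP, ← E.eq_pu (E.T₁_ne K)] at h4
  rw [h4]
  exact ⟨E.pu_ne _, E.uu_pu _⟩

/-- duplication -/
theorem double {P : E.Pt K} (hP : P ≠ 0) (hy : E.yy P ≠ 0) :
    P + P ≠ 0 ∧ 4 * E.yy P ^ 2 * E.uu (P + P) = (E.uu P ^ 2 - E.A K * E.B K) ^ 2 := by
  have h1 := E.eqn hP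
  have h2 := two_ne K
  obtain ⟨l, hl⟩ : ∃ l, l = (3 * E.uu P ^ 2 - 2 * (E.A K + E.B K) * E.uu P + E.A K * E.B K) /
    (2 * E.yy P) := ⟨_, rfl⟩
  have hl' : l * (2 * E.yy P) = 3 * E.uu P ^ 2 - 2 * (E.A K + E.B K) * E.uu P + E.A K * E.B K := by
    rw [hl]
    exact div_mul_cancel₀ _ (mul_ne_zero h2 hy)
  obtain ⟨h3, h4⟩ := E.add_pu (l := l) (u₃ := l ^ 2 - E.uu P - E.uu P + E.A K + E.B K)
    (y₃ := -(l * (l ^ 2 - E.uu P - E.uu P + E.A K + E.B K - E.uu P) + E.yy P))
    (E.eqn hP) (E.eqn hP) (fun h => hy (by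
      have h5 : 2 * E.yy P = 0 := by linear_combination h.2
      exact (mul_eq_zero.1 h5).resolve_left h2)) (by ring) (by
      linear_combination hl') rfl rfl
  rw [← E.eq_pu hP] at h4
  rw [h4]
  refine ⟨E.pu_ne _, ?_⟩
  rw [E.uu_pu]
  linear_combination (l * (2 * E.yy P) + (3 * E.uu P ^ 2 - 2 * (E.A K + E.B K) * E.uu P +
    E.A K * E.B K)) * hl' + 4 * (E.A K + E.B K - 2 * E.uu P) * h1

/-- the values of `u` at the points of order two -/
theorem yy_eq_zero {P : E.Pt K} (h : E.yy P = 0) : E.uu P = 0 ∨ E.uu P = E.A K ∨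
    E.uu P = E.B K := by
  have h1 := E.eqn' P
  rw [h, zero_pow two_ne_zero] at h1
  rcases mul_eq_zero.1 h1.symm with h2 | h2
  · rcases mul_eq_zero.1 h2 with h3 | h3
    · exact Or.inl h3
    · exact Or.inr (Or.inl (sub_eq_zero.1 h3))
  · exact Or.inr (Or.inr (sub_eq_zero.1 h2))

theorem uu_double {P : E.Pt K} (hP : P ≠ 0) (hy : E.yy P ≠ 0) :
    4 * (E.uu P * (E.uu P - E.A K) * (E.uu P - E.B K)) * E.uu (P + P) =
      (E.uu P ^ 2 - E.A K * E.B K) ^ 2 := by
  rw [← E.eqn hP]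
  exact (E.double hP hy).2

/-- points with given first coordinate over algebraically closed fields -/
theorem exists_pt [IsAlgClosed K] (u : K) : ∃ P : E.Pt K, P ≠ 0 ∧ E.uu P = u := by
  obtain ⟨y, hy⟩ := IsAlgClosed.exists_pow_nat_eq (u * (u - E.A K) * (u - E.B K)) two_pos
  exact ⟨E.pu u y hy, E.pu_ne _, E.uu_pu _⟩

/-- division by two -/
theorem exists_half [IsAlgClosed K] {R : E.Pt K} (hR : R ≠ 0) : ∃ S : E.Pt K, S ≠ 0 ∧ S + S = R := by
  obtain ⟨u, hu⟩ : ∃ u : K, (u ^ 2 - E.A K * E.B K) ^ 2 =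
      4 * (u * (u - E.A K) * (u - E.B K)) * E.uu R := by
    let p : Polynomial K := (Polynomial.X ^ 2 - Polynomial.C (E.A K * E.B K)) ^ 2 -
      Polynomial.C (4 * E.uu R) * (Polynomial.X * (Polynomial.X - Polynomial.C (E.A K)) *
        (Polynomial.X - Polynomial.C (E.B K)))
    have hp : p.degree ≠ 0 := by
      have h1 : ((Polynomial.X ^ 2 - Polynomial.C (E.A K * E.B K)) ^ 2 : Polynomial K).degree =
          4 := by
        rw [Polynomial.degree_pow, Polynomial.degree_X_pow_sub_C two_pos]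
        norm_num
      have h2 : (Polynomial.C (4 * E.uu R) * (Polynomial.X * (Polynomial.X - Polynomial.C (E.A K)) *
          (Polynomial.X - Polynomial.C (E.B K))) : Polynomial K).degree < 4 := by
        refine lt_of_le_of_lt (Polynomial.degree_mul_le _ _) ?_
        rw [Polynomial.degree_mul, Polynomial.degree_mul, Polynomial.degree_X,
          Polynomial.degree_X_sub_C, Polynomial.degree_X_sub_C]
        have h3 := Polynomial.degree_C_le (a := 4 * E.uu R)
        have h4 : (1 + 1 + 1 : WithBot ℕ) < 4 := by norm_num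
        calc (Polynomial.C (4 * E.uu R)).degree + (1 + 1 + 1) ≤ 0 + (1 + 1 + 1) := by gcongr
          _ < 4 := by rw [zero_add]; exact h4
      have h3 : p.degree = 4 := by
        rw [Polynomial.degree_sub_eq_left_of_degree_lt (by rw [h1]; exact h2), h1]
      rw [h3]
      norm_num
    obtain ⟨u, hu⟩ := IsAlgClosed.exists_root p hp
    refine ⟨u, ?_⟩
    have h1 : p.eval u = 0 := hu
    simp only [p, Polynomial.eval_sub, Polynomial.eval_pow, Polynomial.eval_mul, Polynomial.eval_X,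
      Polynomial.eval_C] at h1
    linear_combination h1
  obtain ⟨S, hS, hSu⟩ := E.exists_pt u
  have hA := E.A_ne K
  have hB := E.B_ne K
  have hAB := sub_ne_zero.2 (E.A_ne_B K)
  have hy : E.yy S ≠ 0 := by
    intro h0
    have h1 := E.eqn hS
    rw [h0, zero_pow two_ne_zero, hSu] at h1
    rw [← h1, mul_zero, zero_mul] at hu
    have h2 : u ^ 2 - E.A K * E.B K = 0 := pow_eq_zero_iff two_ne_zero |>.1 hu
    rcases E.yy_eq_zero h0 with h3 | h3 | h3
    · rw [← hSu, h3] at h2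
      exact mul_ne_zero hA hB (by linear_combination -h2)
    · rw [← hSu, h3] at h2
      exact mul_ne_zero hA hAB (by linear_combination h2)
    · rw [← hSu, h3] at h2
      exact mul_ne_zero hB hAB (by linear_combination -h2)
  have h1 := E.double hS hy
  have h2 := E.uu_double hS hy
  rw [hSu] at h2
  have h3 : 4 * (u * (u - E.A K) * (u - E.B K)) ≠ 0 := by
    rw [← hSu, ← E.eqn hS]
    have h4 : (4 : K) = 2 * 2 := by norm_num
    rw [h4]
    exact mul_ne_zero (mul_ne_zero (two_ne K) (two_ne K)) (pow_ne_zero _ hy)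
  have h4 : E.uu (S + S) = E.uu R := mul_left_cancel₀ h3 (h2.trans hu)
  rcases E.eq_or_neg h1.1 hR h4 with h5 | h5
  · exact ⟨S, hS, h5⟩
  · exact ⟨-S, neg_ne_zero.2 hS, by rw [← neg_add, h5, neg_neg]⟩

end

end Cv

end Pool.Agent.N101.ZE
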