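import Pool.Agent.N101.ZE.ERT
import Pool.Agent.N101.ZP.XPoly

/-!
# The line `r + s = 1` from the curve `u = u (P)`
-/

set_option autoImplicit false
set_option linter.unusedSectionVars false
set_option linter.style.haveILetI false
set_option linter.unusedSimpArgs false

namespace Pool.Agent.N101.ZE

open Pool.Agent.N101.ZP
open MvPolynomial
open Pool.Agent.R948 (mon rel dr dr_le_card td cp un binom)

variable (E : Cv)

/-- conditions which may be added to systems -/
def EG {κ : Type} (s : κ → Bool) (G : Cond Fa κ) : Prop :=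
  Good E.RTh (fun b : Bool => (b : E.RTh.S)) diagC (s : κ → E.RTh.S) G

section

variable {E} {κ lam : Type}

theorem EG.comap {s : κ → Bool} {G : Cond Fa κ} (h : EG E s G) (s' : lam → Bool) (f : κ → lam)
    (hf : ∀ i, s' (f i) = s i) : EG E s' (G.comap f) :=
  Good.comap h _ f hf

theorem EG.and {s : κ → Bool} {G G' : Cond Fa κ} (h : EG E s G) (h' : EG E s G') :
    EG E s (G.and G') :=
  Good.and h h'

theorem EG.congr {s : κ → Bool} {G G' : Cond Fa κ} (h : EG E s G)
    (h1 : ∀ (K : Type) [Field K] [Algebra Fa K] (y : κ → K), (∀ i, s i = true → y i ≠ 0) →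
      (G'.sat y ↔ G.sat y)) : EG E s G' :=
  Good.congr h (fun K _ _ y hy => h1 K y hy)

theorem EG.diag : EG E (fun b : Bool => b) diagC := Good.base

theorem EG.of_spC [Fintype κ] {s : κ → Bool} {G : Cond Fa κ} (h : SpC E.RTh s G) : EG E s G :=
  Good.of_spC h

theorem erk_false [Fintype κ] {K : Type} [Field K] [Algebra Fa K] (y : κ → K) :
    E.erk (fun _ => false) y = rkt (fun i => E.eu false (y i)) := by
  rw [Cv.erk, rkt_one (fun i => tu false (y i)) fun i => tu_false rfl _, add_zero]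

theorem erk_true [Fintype κ] {K : Type} [Field K] [Algebra Fa K] (y : κ → K) :
    E.erk (fun _ => true) y = rkt (fun i => tu true (y i)) := by
  rw [Cv.erk, rkt_one (fun i => E.eu true (y i)) fun i => E.eu_true rfl _, zero_add]

/-- special conditions on the elliptic coordinates -/
theorem EG.mod [Fintype κ] (L : List (MvPolynomial κ Fa))
    (h : ∀ (K : Type) [Field K] [Algebra Fa K] (y : κ → K), (∀ f ∈ L, aeval y f = 0) →
      rkt (fun i => E.eu false (y i)) + L.length ≤ Fintype.card κ) :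
    EG E (fun _ => false) (Cond.pols L) := by
  refine EG.of_spC (spC_pols (T := E.RTh) (s := fun _ => false) _ fun K _ _ y _ hy => ?_)
  change E.erk (fun _ => false) y + _ ≤ _
  rw [erk_false]
  exact h K y hy

/-- special conditions on the torus coordinates -/
theorem EG.tor [Fintype κ] (b : κ → ℤ) (hb : b ≠ 0) (ξ : Fa) (N : ℕ) (hN : 0 < N)
    (hξ : ξ ^ N = 1) : EG E (fun _ => true) (Cond.pols [binom ξ b]) := by
  refine EG.of_spC (spC_pols (T := E.RTh) (s := fun _ => true) _ fun K _ _ y hok hy => ?_)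
  change E.erk (fun _ => true) y + _ ≤ _
  rw [erk_true]
  have h1 := hy _ List.mem_cons_self
  have h2 : un (fun i => tu true (y i)) = y := by
    funext i
    exact tu_true rfl (hok i rfl)
  rw [← h2, R948.aeval_binom] at h1
  refine rkt_lt _ b hb N hN ?_
  apply Units.ext
  rw [Units.val_pow_eq_pow_val, h1, ← map_pow, hξ, map_one, Units.val_one]

theorem rkt_le_one {G : Type} [CommGroup G] [Fintype κ] (v : κ → G) (g : G) (m : κ → ℤ) (t : κ → G)
    (ht : ∀ j, ∃ N : ℕ, 0 < N ∧ t j ^ N = 1) (h : ∀ j, v j = t j * g ^ m j) : rkt v ≤ 1 := by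
  have h1 := rkt_le_of (fun _ : Unit => g) v (fun j _ => m j) t ht (fun j => by
    rw [h j]
    simp [mon])
  have h2 := rkt_add_dr (fun _ : Unit => g)
  rw [Fintype.card_unit] at h2
  omega

theorem rkt_le_zero {G : Type} [CommGroup G] [Fintype κ] (v : κ → G)
    (ht : ∀ j, ∃ N : ℕ, 0 < N ∧ v j ^ N = 1) : rkt v = 0 := by
  have h1 := rkt_le_of (fun i : Empty => (i.elim : G)) v (fun _ => 0) v ht (fun j => by
    rw [R948.mon_zero, mul_one])
  have h2 := rkt_add_dr (fun i : Empty => (i.elim : G))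
  rw [Fintype.card_empty] at h2
  omega

/-- equality of elliptic coordinates -/
theorem EG.eqm : EG E (fun _ : Fin 2 => false)
    (ZP.polZ (X 0 - X 1 : MvPolynomial (Fin 2) ℤ)) := by
  refine (EG.mod [X 0 - X 1] fun K _ _ y hy => ?_).congr fun K _ _ y _ => ?_
  · have h2 := hy _ List.mem_cons_self
    rw [map_sub, aeval_X, aeval_X, sub_eq_zero] at h2
    have h3 := rkt_le_one (fun i => E.eu false (y i)) (E.eu false (y 0)) (fun _ => 1) (fun _ => 1)
      (fun _ => ⟨1, one_pos, one_pow 1⟩) (fun i => by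
        rw [one_mul, zpow_one]
        fin_cases i
        · rfl
        · change E.eu false (y 1) = _
          rw [h2])
    simp only [List.length_cons, List.length_nil, Fintype.card_fin]
    omega
  · simp [ZP.polZ, Cond.pols]

/-- constants -/
theorem EG.const {c : Fa} (hc : ∀ (K : Type) [Field K] [Algebra Fa K] (P : E.Pt K), P ≠ 0 →
    E.uu P = algebraMap Fa K c → P + P = 0) :
    EG E (fun _ : Fin 1 => false) (Cond.pols [X 0 - C c]) := by
  refine EG.mod _ fun K _ _ y hy => ?_
  have h2 := hy _ List.mem_cons_self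
  rw [map_sub, aeval_X, aeval_C, sub_eq_zero] at h2
  have h3 := rkt_le_zero (fun i => E.eu false (y i)) fun i => by
    have : i = 0 := Subsingleton.elim _ _
    rw [this, E.eu_false rfl]
    refine ⟨2, two_pos, ?_⟩
    have h4 := hc (AlgebraicClosure K) (E.lift (y 0)) (E.lift_ne _) (by
      rw [E.uu_lift, h2, ← IsScalarTower.algebraMap_apply])
    rw [pow_two]
    exact h4
  simp only [List.length_cons, List.length_nil, Fintype.card_fin]
  omega

theorem EG.zerom : EG E (fun _ : Fin 1 => false) (ZP.polZ (X 0 : MvPolynomial (Fin 1) ℤ)) := by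
  refine (EG.const (c := 0) fun K _ _ P hP h => ?_).congr fun K _ _ y _ => ?_
  · rw [map_zero] at h
    rw [E.eq_T_of_uu hP h]
    exact E.T_add_T
  · simp [ZP.polZ, Cond.pols]

theorem EG.al : EG E (fun _ : Fin 1 => false) (Cond.pols [X 0 - C E.al]) := by
  refine EG.const fun K _ _ P hP h => ?_
  apply E.add_self_of_yy
  have h1 := E.eqn hP
  have h2 : E.uu P - E.A K = 0 := sub_eq_zero.2 h
  rw [h2, mul_zero, zero_mul] at h1
  exact pow_eq_zero_iff two_ne_zero |>.1 h1

/-- multiplication on the torus -/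
theorem EG.mult : EG E (fun _ : Fin 3 => true)
    (ZP.polZ (X 0 * X 1 - X 2 : MvPolynomial (Fin 3) ℤ)) := by
  refine (EG.tor ![1, 1, -1] (fun h => ?_) 1 1 one_pos (one_pow 1)).congr fun K _ _ y _ => ?_
  · have := congrFun h 0
    simp at this
  · simp [ZP.polZ, Cond.pols, binom, Fin.prod_univ_succ]

theorem EG.onet : EG E (fun _ : Fin 1 => true)
    (ZP.polZ (X 0 - 1 : MvPolynomial (Fin 1) ℤ)) := by
  refine (EG.tor ![1] (fun h => ?_) 1 1 one_pos (one_pow 1)).congr fun K _ _ y _ => ?_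
  · have := congrFun h 0
    simp at this
  · simp [ZP.polZ, Cond.pols, binom, Fin.prod_univ_succ]

theorem EG.negt : EG E (fun _ : Fin 2 => true)
    (ZP.polZ (X 0 + X 1 : MvPolynomial (Fin 2) ℤ)) := by
  refine (EG.tor ![1, -1] (fun h => ?_) (-1) 2 two_pos (by norm_num)).congr fun K _ _ y _ => ?_
  · have := congrFun h 0
    simp at this
  · simp [ZP.polZ, Cond.pols, binom, Fin.prod_univ_succ]

/-- opposite quotients -/
theorem EG.oppt : EG E (fun _ : Fin 4 => true)
    (ZP.polZ (X 0 * X 1 + X 2 * X 3 : MvPolynomial (Fin 4) ℤ)) := by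
  refine (EG.tor ![1, 1, -1, -1] (fun h => ?_) (-1) 2 two_pos (by norm_num)).congr
    fun K _ _ y _ => ?_
  · have := congrFun h 0
    simp at this
  · simp [ZP.polZ, Cond.pols, binom, Fin.prod_univ_succ]

variable (E)

/-- the equations of `(P, P + T₁, 2 P)` -/
noncomputable def dblL : List (MvPolynomial (Fin 3) Fa) :=
  [X 1 * (X 0 - C E.al) - C E.al * (X 0 - C E.be),
    4 * X 2 * (X 0 * (X 0 - C E.al) * (X 0 - C E.be)) - (X 0 ^ 2 - C E.al * C E.be) ^ 2]

variable {E}

theorem sat_dbl {K : Type} [Field K] [Algebra Fa K] (y : Fin 3 → K) :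
    (∀ f ∈ dblL E, aeval y f = 0) ↔ y 1 * (y 0 - E.A K) = E.A K * (y 0 - E.B K) ∧
      4 * y 2 * (y 0 * (y 0 - E.A K) * (y 0 - E.B K)) = (y 0 ^ 2 - E.A K * E.B K) ^ 2 := by
  simp [dblL, Cv.A, Cv.B, sub_eq_zero]

theorem dbl_ne {K : Type} [Field K] [Algebra Fa K] {u v w : K}
    (h1 : v * (u - E.A K) = E.A K * (u - E.B K))
    (h2 : 4 * w * (u * (u - E.A K) * (u - E.B K)) = (u ^ 2 - E.A K * E.B K) ^ 2) :
    u ≠ 0 ∧ u - E.A K ≠ 0 ∧ u - E.B K ≠ 0 := by
  have hA := E.A_ne K
  have hB := E.B_ne K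
  have hAB := sub_ne_zero.2 (E.A_ne_B K)
  refine ⟨?_, ?_, ?_⟩
  · rintro rfl
    have h3 : (E.A K * E.B K) ^ 2 = 0 := by linear_combination -h2
    exact mul_ne_zero hA hB (pow_eq_zero_iff two_ne_zero |>.1 h3)
  · intro h0
    have h3 : u = E.A K := sub_eq_zero.1 h0
    rw [h0, mul_zero, h3] at h1
    exact mul_ne_zero hA hAB h1.symm
  · intro h0
    have h3 : u = E.B K := sub_eq_zero.1 h0
    rw [h0, mul_zero, mul_zero, h3] at h2
    have h4 : (E.B K * (E.A K - E.B K)) ^ 2 = 0 := by linear_combination -h2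
    exact mul_ne_zero hB hAB (pow_eq_zero_iff two_ne_zero |>.1 h4)

theorem EG.dbl : EG E (fun _ : Fin 3 => false) (Cond.pols (dblL E)) := by
  refine EG.mod _ fun K _ _ y hy => ?_
  rw [sat_dbl] at hy
  obtain ⟨h1, h2⟩ := hy
  obtain ⟨n1, n2, n3⟩ := dbl_ne h1 h2
  let φ : K →+* AlgebraicClosure K := algebraMap K (AlgebraicClosure K)
  have hφA : φ (E.A K) = E.A (AlgebraicClosure K) := by
    exact (IsScalarTower.algebraMap_apply Fa K (AlgebraicClosure K) E.al).symm
  have hφB : φ (E.B K) = E.B (AlgebraicClosure K) := by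
    exact (IsScalarTower.algebraMap_apply Fa K (AlgebraicClosure K) E.be).symm
  have hP := E.lift_ne (y 0)
  have hPu : E.uu (E.lift (y 0)) = φ (y 0) := E.uu_lift (y 0)
  have hne1 : E.uu (E.lift (y 0)) ≠ E.A (AlgebraicClosure K) := by
    rw [hPu, ← hφA]
    intro h
    exact n2 (sub_eq_zero.2 (φ.injective h))
  have hy0 : E.yy (E.lift (y 0)) ≠ 0 := by
    intro h0
    have h3 := E.eqn hP
    rw [h0, zero_pow two_ne_zero, hPu, ← hφA, ← hφB, ← map_sub, ← map_sub, ← map_mul,
      ← map_mul] at h3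
    exact mul_ne_zero (mul_ne_zero n1 n2) n3
      ((map_eq_zero_iff φ φ.injective).1 h3.symm)
  obtain ⟨g1, g2⟩ := E.add_T₁ hP hne1
  obtain ⟨g3, -⟩ := E.double hP hy0
  have g4 := E.uu_double hP hy0
  -- the second point
  have e1 : E.uu (E.lift (y 1)) = E.uu (E.lift (y 0) + E.T₁ (AlgebraicClosure K)) := by
    have h3 : E.uu (E.lift (y 0)) - E.A (AlgebraicClosure K) ≠ 0 := sub_ne_zero.2 hne1
    rw [g2, E.uu_lift, eq_div_iff h3, hPu, ← hφA, ← hφB]
    have := congrArg φ h1
    simpa using this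
  have e2 : E.uu (E.lift (y 2)) = E.uu (E.lift (y 0) + E.lift (y 0)) := by
    have h3 : 4 * (E.uu (E.lift (y 0)) * (E.uu (E.lift (y 0)) - E.A (AlgebraicClosure K)) *
        (E.uu (E.lift (y 0)) - E.B (AlgebraicClosure K))) ≠ 0 := by
      rw [← E.eqn hP]
      have h4 : (4 : AlgebraicClosure K) = 2 * 2 := by norm_num
      rw [h4]
      exact mul_ne_zero (mul_ne_zero (Cv.two_ne _) (Cv.two_ne _)) (pow_ne_zero _ hy0)
    refine mul_left_cancel₀ h3 ?_
    rw [g4, E.uu_lift (y 2), hPu, ← hφA, ← hφB]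
    have := congrArg φ h2
    simp only [map_mul, map_sub, map_pow, map_ofNat] at this
    linear_combination this
  have f1 := E.eq_or_neg (E.lift_ne (y 1)) g1 e1
  have f2 := E.eq_or_neg (E.lift_ne (y 2)) g3 e2
  have hT : E.mul (E.T₁ (AlgebraicClosure K)) ^ 2 = 1 := by
    rw [pow_two]
    exact E.T₁_add_T₁
  have key : ∀ i : Fin 3, ∃ (t : Multiplicative (E.Pt (AlgebraicClosure K))) (m : ℤ), t ^ 2 = 1 ∧
      E.eu false (y i) = t * (E.mul (E.lift (y 0))) ^ m := by
    intro i
    fin_cases i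
    · exact ⟨1, 1, one_pow 2, by rw [one_mul, zpow_one]; exact E.eu_false rfl _⟩
    · rcases f1 with f1 | f1
      · refine ⟨E.mul (E.T₁ (AlgebraicClosure K)), 1, hT, ?_⟩
        change E.eu false (y 1) = _
        rw [E.eu_false rfl, f1, zpow_one, mul_comm]
        rfl
      · refine ⟨(E.mul (E.T₁ (AlgebraicClosure K)))⁻¹, -1, by rw [inv_pow, hT, inv_one], ?_⟩
        change E.eu false (y 1) = _
        rw [E.eu_false rfl, f1, zpow_neg_one, ← mul_inv, mul_comm]
        rfl
    · rcases f2 with f2 | f2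
      · refine ⟨1, 2, one_pow 2, ?_⟩
        change E.eu false (y 2) = _
        rw [E.eu_false rfl, f2, one_mul, zpow_two]
        rfl
      · refine ⟨1, -2, one_pow 2, ?_⟩
        change E.eu false (y 2) = _
        rw [E.eu_false rfl, f2, one_mul, zpow_neg, zpow_two]
        rfl
  choose t m ht hm using key
  have h5 := rkt_le_one (fun i => E.eu false (y i)) _ m t (fun j => ⟨2, two_pos, ht j⟩) hm
  simp only [dblL, List.length_cons, List.length_nil, Fintype.card_fin]
  omega

end

/-- the sorts of the auxiliary coordinates -/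
def lsort : Fin 14 → Bool :=
  ![false, false, false, false, false, false, false, true, true, true, true, true, true, true]

section

variable {K : Type} [Field K] [Algebra Fa K]

/-- the equation satisfied by the coordinates of `(P, P + T₁, 2 P)` -/
theorem dbl_eq {u v w : K} (h1 : v * (u - E.A K) = E.A K * (u - E.B K))
    (h2 : 4 * w * (u * (u - E.A K) * (u - E.B K)) = (u ^ 2 - E.A K * E.B K) ^ 2) :
    E.A K * (u + v) ^ 2 = 4 * w * u * v := by
  obtain ⟨n1, n2, n3⟩ := dbl_ne h1 h2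
  have h3 : (u + v) * (u - E.A K) = u ^ 2 - E.A K * E.B K := by linear_combination h1
  apply mul_right_cancel₀ (pow_ne_zero 2 n2)
  have h4 : ((u + v) * (u - E.A K)) ^ 2 = (u ^ 2 - E.A K * E.B K) ^ 2 := by rw [h3]
  linear_combination E.A K * h4 - E.A K * h2 - 4 * w * u * (u - E.A K) * h1

/-- existence of the points -/
theorem exists_dbl [IsAlgClosed K] {r ρ : K} (hρ : ρ ≠ 0) (h : (1 + ρ) ^ 2 = 4 * r * ρ) :
    ∃ u v : K, u ≠ 0 ∧ v = ρ * u ∧ v * (u - E.A K) = E.A K * (u - E.B K) ∧
      4 * (E.A K * r) * (u * (u - E.A K) * (u - E.B K)) = (u ^ 2 - E.A K * E.B K) ^ 2 := by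
  have hA := E.A_ne K
  have hB := E.B_ne K
  obtain ⟨u, hu⟩ : ∃ u : K, ρ * u ^ 2 - E.A K * (1 + ρ) * u + E.A K * E.B K = 0 := by
    let p : Polynomial K := Polynomial.C ρ * Polynomial.X ^ 2 +
      Polynomial.C (-(E.A K * (1 + ρ))) * Polynomial.X + Polynomial.C (E.A K * E.B K)
    have hp : p.degree ≠ 0 := by
      rw [Polynomial.degree_quadratic hρ]
      norm_num
    obtain ⟨u, hu⟩ := IsAlgClosed.exists_root p hp
    refine ⟨u, ?_⟩
    have h1 : p.eval u = 0 := hu
    simp only [p, Polynomial.eval_add, Polynomial.eval_pow, Polynomial.eval_mul, Polynomial.eval_X,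
      Polynomial.eval_C] at h1
    linear_combination h1
  have hu0 : u ≠ 0 := by
    rintro rfl
    exact mul_ne_zero hA hB (by linear_combination hu)
  have h1 : ρ * u * (u - E.A K) = E.A K * (u - E.B K) := by linear_combination hu
  refine ⟨u, ρ * u, hu0, rfl, h1, ?_⟩
  have h3 : (u + ρ * u) * (u - E.A K) = u ^ 2 - E.A K * E.B K := by linear_combination h1
  rw [← h3]
  linear_combination -(u - E.A K) ^ 2 * u ^ 2 * h - 4 * r * u * (u - E.A K) * h1

end

end Pool.Agent.N101.ZE
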