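import Pool.Agent.N101.ZE.Tors
import Pool.Agent.N101.ZP.XRk
import Pool.Agent.N101.ZP.Gen

/-!
# The rank theory of the products of powers of an elliptic curve and tori
-/

set_option autoImplicit false
set_option linter.unusedSectionVars false
set_option linter.style.haveILetI false

namespace Pool.Agent.N101.ZE

open Pool.Agent.N101.ZP
open Pool.Agent.R948 (mon rel dr relProj dr_sum le_dr_sum rank_ext dr_le_card td cp un Spec)

section

variable {ι κ G H : Type} [Fintype ι] [Fintype κ] [CommGroup G] [CommGroup H]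

/-- families in the group generated by another one, up to torsion -/
theorem rkt_le_of (u : ι → G) (v : κ → G) (m : κ → ι → ℤ) (t : κ → G)
    (ht : ∀ j, ∃ N : ℕ, 0 < N ∧ t j ^ N = 1) (h : ∀ j, v j = t j * mon u (m j)) :
    rkt v ≤ rkt u := by
  have h1 := le_dr_sum u v m t ht h
  have h2 := dr_le_add u v
  have h3 := rkt_add_dr u
  have h4 := rkt_add_dr v
  omega

theorem rkt_pm (u v : ι → G) (h : ∀ i, v i = u i ∨ v i = (u i)⁻¹) : rkt v ≤ rkt u := by
  classical
  have h1 : ∀ i, ∃ c : ℤ, v i = u i ^ c := by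
    intro i
    rcases h i with h1 | h1
    · exact ⟨1, by rw [h1, zpow_one]⟩
    · exact ⟨-1, by rw [h1, zpow_neg_one]⟩
  choose c hc using h1
  refine rkt_le_of u v (fun i => c i • Pi.single i 1) (fun _ => 1)
    (fun _ => ⟨1, one_pos, one_pow 1⟩) fun i => ?_
  rw [R948.mon_smul, mon_single, one_mul, hc]

theorem rkt_pm' (u v : ι → G) (h : ∀ i, v i = u i ∨ v i = (u i)⁻¹) : rkt v = rkt u := by
  refine le_antisymm (rkt_pm u v h) (rkt_pm v u fun i => ?_)
  rcases h i with h1 | h1
  · exact Or.inl h1.symm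
  · exact Or.inr (by rw [h1, inv_inv])

theorem mon_map (φ : G →* H) (u : ι → G) (a : ι → ℤ) : mon (fun i => φ (u i)) a = φ (mon u a) := by
  simp [mon, map_prod, map_zpow]

theorem rel_map (φ : G →* H) (u : ι → G) : rel u ≤ rel (fun i => φ (u i)) := by
  rintro a ⟨N, hN, b, hb, h⟩
  refine ⟨N, hN, b, hb, ?_⟩
  rw [mon_map, h, map_one]

theorem rel_map_inj (φ : G →* H) (hφ : Function.Injective φ) (u : ι → G) :
    rel (fun i => φ (u i)) = rel u := by
  refine le_antisymm ?_ (rel_map φ u)
  rintro a ⟨N, hN, b, hb, h⟩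
  refine ⟨N, hN, b, hb, hφ ?_⟩
  rw [← mon_map, h, map_one]

theorem rkt_map_inj (φ : G →* H) (hφ : Function.Injective φ) (u : ι → G) :
    rkt (fun i => φ (u i)) = rkt u := by
  rw [rkt, rkt, dr, dr, rel_map_inj φ hφ]

end

variable (E : Cv)

namespace Cv

section

variable {K L M : Type} [Field K] [Field L] [Field M] [Algebra Fa K] [Algebra Fa L] [Algebra Fa M]

/-- points in multiplicative notation -/
abbrev mul (P : E.Pt K) : Multiplicative (E.Pt K) := Multiplicative.ofAdd P

/-- a point over the algebraic closure with a given first coordinate -/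
noncomputable def lift (u : K) : E.Pt (AlgebraicClosure K) :=
  (E.exists_pt (algebraMap K (AlgebraicClosure K) u)).choose

theorem lift_ne (u : K) : E.lift u ≠ 0 :=
  (E.exists_pt (algebraMap K (AlgebraicClosure K) u)).choose_spec.1

theorem uu_lift (u : K) : E.uu (E.lift u) = algebraMap K (AlgebraicClosure K) u :=
  (E.exists_pt (algebraMap K (AlgebraicClosure K) u)).choose_spec.2

/-- the elliptic coordinates -/
noncomputable def eu (b : Bool) (u : K) : Multiplicative (E.Pt (AlgebraicClosure K)) :=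
  if b = false then E.mul (E.lift u) else 1

theorem eu_true {b : Bool} (hb : b = true) (u : K) : E.eu b u = 1 := by
  rw [eu, if_neg]
  rw [hb]
  exact fun h => Bool.false_ne_true h.symm

theorem eu_false {b : Bool} (hb : b = false) (u : K) : E.eu b u = E.mul (E.lift u) := if_pos hb

variable {ι κ : Type} [Fintype ι] [Fintype κ]

/-- maps of points in multiplicative notation -/
noncomputable def mpm (f : E.Pt K →+ E.Pt L) :
    Multiplicative (E.Pt K) →* Multiplicative (E.Pt L) := AddMonoidHom.toMultiplicative f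

theorem mpm_mul (f : E.Pt K →+ E.Pt L) (P : E.Pt K) : E.mpm f (E.mul P) = E.mul (f P) := rfl

theorem mpm_inj (f : E.Pt K →+ E.Pt L) (hf : Function.Injective f) :
    Function.Injective (E.mpm f) := hf

/-- the rank may be computed with any points with the given first coordinates -/
theorem rkt_lift (f : K →ₐ[Fa] M) (s : ι → Bool) (p : ι → K) (Q : ι → E.Pt M)
    (hQ : ∀ i, s i = false → Q i ≠ 0 ∧ E.uu (Q i) = f (p i)) (hQ' : ∀ i, s i = true → Q i = 0) :
    rkt (fun i => E.mul (Q i)) = rkt (fun i => E.eu (s i) (p i)) := by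
  letI : Algebra K (AlgebraicClosure M) :=
    ((algebraMap M (AlgebraicClosure M)).comp f.toRingHom).toAlgebra
  let φ₀ : AlgebraicClosure K →ₐ[K] AlgebraicClosure M := IsAlgClosed.lift
  let φ : AlgebraicClosure K →ₐ[Fa] AlgebraicClosure M :=
    { φ₀.toRingHom with
      commutes' := by
        intro c
        change φ₀ (algebraMap Fa (AlgebraicClosure K) c) = _
        rw [IsScalarTower.algebraMap_apply Fa K (AlgebraicClosure K), φ₀.commutes]
        change algebraMap M (AlgebraicClosure M) (f (algebraMap Fa K c)) = _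
        rw [f.commutes, ← IsScalarTower.algebraMap_apply] }
  have hφ : ∀ x : K, φ (algebraMap K (AlgebraicClosure K) x) =
      algebraMap M (AlgebraicClosure M) (f x) := fun x => φ₀.commutes x
  let ψ : M →ₐ[Fa] AlgebraicClosure M := IsScalarTower.toAlgHom Fa M (AlgebraicClosure M)
  rw [← rkt_map_inj (E.mpm (E.mp φ)) (E.mpm_inj _ (E.mp_inj φ)) (fun i => E.eu (s i) (p i)),
    ← rkt_map_inj (E.mpm (E.mp ψ)) (E.mpm_inj _ (E.mp_inj ψ)) (fun i => E.mul (Q i))]
  refine rkt_pm' _ _ fun i => ?_
  rw [mpm_mul]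
  cases hs : s i with
  | true =>
    left
    rw [hQ' i hs, E.eu_true rfl, map_zero, map_one]
    rfl
  | false =>
    rw [E.eu_false rfl, mpm_mul]
    obtain ⟨h1, h2⟩ := hQ i hs
    have h3 := E.mp_spec ψ h1
    have h4 := E.mp_spec φ (E.lift_ne (p i))
    have h5 : E.uu (E.mp ψ (Q i)) = E.uu (E.mp φ (E.lift (p i))) := by
      rw [h3.2.1, h4.2.1, E.uu_lift, hφ, h2]
      rfl
    rcases E.eq_or_neg h3.1 h4.1 h5 with h6 | h6
    · left
      rw [h6]
    · right
      rw [h6]
      rfl

/-- the rank depends only on the relations over the algebraic numbers -/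
theorem rkt_eq_of (s : ι → Bool) {p : ι → K} {q : ι → L} (h : Sp Fa p q) (h' : Sp Fa q p) :
    rkt (fun i => E.eu (s i) (p i)) = rkt (fun i => E.eu (s i) (q i)) := by
  obtain ⟨P, hP⟩ : ∃ P : PP Fa ι, P = PP.ofPt Fa p := ⟨_, rfl⟩
  have h1 : ∀ f, MvPolynomial.aeval p f = 0 ↔ f ∈ P.I := by
    intro f
    rw [hP]
    exact Iff.rfl
  have h2 : ∀ f, MvPolynomial.aeval q f = 0 ↔ f ∈ P.I := by
    intro f
    rw [← h1]
    exact ⟨fun hf => h' f hf, fun hf => h f hf⟩
  obtain ⟨φ₁, hφ₁⟩ := exists_fldHom' P p h1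
  obtain ⟨φ₂, hφ₂⟩ := exists_fldHom' P q h2
  have key : ∀ {M : Type} [Field M] [Algebra Fa M] (r : ι → M) (φ : P.fld →ₐ[Fa] M)
      (_ : ∀ j, φ (P.pt j) = r j),
      rkt (fun i => E.eu (s i) (r i)) = rkt (fun i => E.eu (s i) (P.pt i)) := by
    intro M _ _ r φ hφ
    refine E.rkt_lift ((IsScalarTower.toAlgHom Fa M (AlgebraicClosure M)).comp φ) s P.pt
      (fun i => Multiplicative.toAdd (E.eu (s i) (r i))) (fun i hi => ?_) (fun i hi => ?_)
    · rw [E.eu_false hi]
      refine ⟨E.lift_ne _, ?_⟩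
      rw [AlgHom.comp_apply, hφ]
      exact E.uu_lift _
    · rw [E.eu_true hi]
      rfl
  rw [key p φ₁ hφ₁, key q φ₂ hφ₂]

/-- specialisations of the elliptic coordinates -/
theorem exists_spec {p : ι → K} {p' : ι → L} (h : Sp Fa p p') :
    ∃ (k : Type) (_ : Field k) (_ : Algebra Fa k) (r : E.Pt (AlgebraicClosure K) →+ E.Pt k)
      (q : ι → k), Sp Fa q p' ∧ Sp Fa p' q ∧
      (∀ (i : ι) (P : E.Pt (AlgebraicClosure K)), P ≠ 0 →
        E.uu P = algebraMap K (AlgebraicClosure K) (p i) → r P ≠ 0 ∧ E.uu (r P) = q i) ∧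
      ∀ R : E.Pt Fa, r (E.bc Fa _ R) = E.bc Fa k R := by
  have h0 : Sp Fa (fun i => algebraMap K (AlgebraicClosure K) (p i)) p' := by
    intro f hf
    refine h f ?_
    have h1 : MvPolynomial.aeval (fun i => algebraMap K (AlgebraicClosure K) (p i)) f =
      algebraMap K (AlgebraicClosure K) (MvPolynomial.aeval p f) :=
        MvPolynomial.aeval_algebraMap_apply _ _ _
    rw [h1] at hf
    exact (map_eq_zero_iff _ (algebraMap K (AlgebraicClosure K)).injective).1 hf
  obtain ⟨k, i1, i2, i3, i4, π, h1, q, h2, h3, h4⟩ := exists_place _ _ h0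
  have hi : i3 = i2 := by
    apply Algebra.algebra_ext
    intro c
    exact (@IsScalarTower.algebraMap_apply Fa Fa k _ _ _ _ i3 i2 i4 c).symm
  subst hi
  refine ⟨k, i1, i3, E.red π, q, h3, h4, fun i P hP hu => ?_, fun R => E.red_bc π h1 R⟩
  obtain ⟨h5, h6⟩ := h2 i
  obtain ⟨g1, g2, -⟩ := E.red_mem π hP (by rw [hu]; exact h5)
  refine ⟨g1, ?_⟩
  rw [g2, ← h6]
  congr 1
  exact Subtype.ext hu

theorem exists_spec' (s : ι → Bool) {p : ι → K} {p' : ι → L} (h : Sp Fa p p') :
    ∃ (k : Type) (_ : Field k) (_ : Algebra Fa k) (Q : ι → E.Pt k),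
      rel (fun i => E.eu (s i) (p i)) ≤ rel (fun i => E.mul (Q i)) ∧
      (∀ (κ : Type) [Fintype κ] (g : κ → ι), rkt (fun j => E.mul (Q (g j))) =
        rkt (fun j => E.eu (s (g j)) (p' (g j)))) ∧
      ∀ a b, s a = false → s b = false → p a ≠ p b → p' a = p' b →
        rkt (fun i => E.mul (Q i)) + 1 ≤ rkt (fun i => E.eu (s i) (p i)) := by
  classical
  obtain ⟨k, i1, i2, r, q, h1, h2, h3, h4⟩ := E.exists_spec h
  let Q : ι → E.Pt k := fun i => r (Multiplicative.toAdd (E.eu (s i) (p i)))
  have hrel : rel (fun i => E.eu (s i) (p i)) ≤ rel (fun i => E.mul (Q i)) :=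
    rel_map (E.mpm r) (fun i => E.eu (s i) (p i))
  refine ⟨k, i1, i2, Q, hrel, ?_, ?_⟩
  · intro κ _ g
    have e1 := E.rkt_lift (AlgHom.id Fa k) (fun j => s (g j)) (fun j => q (g j))
      (fun j => Q (g j)) (fun j hj => by
        change r (Multiplicative.toAdd (E.eu (s (g j)) (p (g j)))) ≠ 0 ∧ E.uu (r
          (Multiplicative.toAdd (E.eu (s (g j)) (p (g j))))) = _
        rw [E.eu_false hj]
        exact h3 (g j) _ (E.lift_ne _) (E.uu_lift _)) (fun j hj => by
        change r (Multiplicative.toAdd (E.eu (s (g j)) (p (g j)))) = 0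
        rw [E.eu_true hj]
        exact map_zero r)
    rw [e1]
    exact E.rkt_eq_of (fun j => s (g j)) (h1.comp g) (h2.comp g)
  · intro a b ha hb hab hab'
    have hq : q a = q b := h2.eq hab'
    obtain ⟨g1, g2⟩ := h3 a _ (E.lift_ne (p a)) (E.uu_lift (p a))
    obtain ⟨g3, g4⟩ := h3 b _ (E.lift_ne (p b)) (E.uu_lift (p b))
    have hpm := E.eq_or_neg g1 g3 (by rw [g2, g4, hq])
    obtain ⟨c, hc, hc'⟩ : ∃ c : ℤ, (c = 1 ∨ c = -1) ∧ r (E.lift (p a)) = c • r (E.lift (p b)) := by
      rcases hpm with h5 | h5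
      · exact ⟨1, Or.inl rfl, by rw [one_smul, h5]⟩
      · exact ⟨-1, Or.inr rfl, by rw [h5, neg_smul, one_smul]⟩
    -- the new relation
    have hmon : ∀ {M : Type} [Field M] [Algebra Fa M] (R : ι → E.Pt M),
        mon (fun i => E.mul (R i)) (Pi.single a 1 - c • Pi.single b 1 : ι → ℤ) =
          E.mul (R a - c • R b) := by
      intro M _ _ R
      rw [sub_eq_add_neg, R948.mon_add, R948.mon_neg, R948.mon_smul, mon_single, mon_single,
        sub_eq_add_neg]
      rfl
    have hlt : dr (fun i => E.eu (s i) (p i)) < dr (fun i => E.mul (Q i)) := by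
      refine Submodule.finrank_lt_finrank_of_lt (lt_of_le_of_ne hrel fun h5 => ?_)
      have h6 : (fun i => ((Pi.single a 1 - c • Pi.single b 1 : ι → ℤ) i : ℚ)) ∈
          rel (fun i => E.mul (Q i)) := by
        rw [R948.mem_rel_int]
        refine ⟨1, one_pos, ?_⟩
        rw [pow_one, hmon]
        have e1 : Q a = r (E.lift (p a)) := by
          change r (Multiplicative.toAdd (E.eu (s a) (p a))) = _
          rw [E.eu_false ha]
          rfl
        have e2 : Q b = r (E.lift (p b)) := by
          change r (Multiplicative.toAdd (E.eu (s b) (p b))) = _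
          rw [E.eu_false hb]
          rfl
        rw [e1, e2, hc', sub_self]
        rfl
      rw [← h5, R948.mem_rel_int] at h6
      obtain ⟨N, hN, h7⟩ := h6
      have h8 := hmon (fun i => Multiplicative.toAdd (E.eu (s i) (p i)))
      have e3 : (fun i => E.mul (Multiplicative.toAdd (E.eu (s i) (p i)))) =
        fun i => E.eu (s i) (p i) := rfl
      rw [e3] at h8
      rw [h8] at h7
      have e1 : Multiplicative.toAdd (E.eu (s a) (p a)) = E.lift (p a) := by
        rw [E.eu_false ha]
        rfl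
      have e2 : Multiplicative.toAdd (E.eu (s b) (p b)) = E.lift (p b) := by
        rw [E.eu_false hb]
        rfl
      rw [e1, e2] at h7
      have h9 : N • (E.lift (p a) - c • E.lift (p b)) = 0 := h7
      obtain ⟨R, hR⟩ := E.mem_of_tors (A := Fa) _ N hN h9
      have h10 : E.bc Fa k R = 0 := by
        rw [← h4, hR, map_sub, map_zsmul, hc', sub_self]
      have h11 : R = 0 := by
        apply E.mp_inj (IsScalarTower.toAlgHom Fa Fa k)
        rw [map_zero]
        exact h10
      rw [h11, map_zero] at hR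
      have h12 : E.lift (p a) = c • E.lift (p b) := (sub_eq_zero.1 hR.symm)
      apply hab
      apply (algebraMap K (AlgebraicClosure K)).injective
      rw [← E.uu_lift (p a), ← E.uu_lift (p b), h12]
      rcases hc with rfl | rfl
      · rw [one_smul]
      · rw [neg_smul, one_smul, E.uu_neg]
    have h5 := rkt_add_dr (fun i => E.eu (s i) (p i))
    have h6 := rkt_add_dr (fun i => E.mul (Q i))
    omega

open scoped IntermediateField.algebraAdjoinAdjoin in
/-- elliptic coordinates which are generated by others up to torsion are algebraic over them -/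
theorem alg_of_mon (s : ι → Bool) (p : ι → K) (S : Set K) (hS : ∀ i, s i = false → p i ∈ S) (x : K)
    (N : ℕ) (hN : 0 < N) (c : ι → ℤ)
    (h : E.mul (E.lift x) ^ N = mon (fun i => E.eu (s i) (p i)) c) :
    IsAlgebraic (Algebra.adjoin Fa S) x := by
  let F₁ : IntermediateField Fa K := IntermediateField.adjoin Fa S
  let A : IntermediateField F₁ (AlgebraicClosure K) := algebraicClosure F₁ (AlgebraicClosure K)
  haveI hA : IsAlgClosed A :=
    (algebraicClosure.isAlgClosure F₁ (AlgebraicClosure K)).isAlgClosed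
  haveI htow : IsScalarTower Fa A (AlgebraicClosure K) :=
    IsScalarTower.of_algebraMap_eq fun _ => rfl
  have h1 : ∀ i, Multiplicative.toAdd (E.eu (s i) (p i)) ∈ (E.bc A (AlgebraicClosure K)).range := by
    intro i
    cases hs : s i with
    | true =>
      rw [E.eu_true rfl]
      exact zero_mem _
    | false =>
      rw [E.eu_false rfl]
      have h2 : algebraMap K (AlgebraicClosure K) (p i) ∈ A := by
        have h3 : p i ∈ F₁ := IntermediateField.subset_adjoin _ _ (hS i hs)
        have h4 := A.algebraMap_mem (⟨p i, h3⟩ : F₁)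
        exact h4
      exact E.mem_range_mp' (IsScalarTower.toAlgHom Fa A (AlgebraicClosure K)) _ ⟨_, h2⟩
        (E.uu_lift _)
  have h2 : Multiplicative.toAdd (mon (fun i => E.eu (s i) (p i)) c) ∈
      (E.bc A (AlgebraicClosure K)).range := by
    have h3 : Multiplicative.toAdd (mon (fun i => E.eu (s i) (p i)) c) =
        ∑ i, c i • Multiplicative.toAdd (E.eu (s i) (p i)) := by
      rw [mon, toAdd_prod]
      rfl
    rw [h3]
    exact sum_mem fun i _ => zsmul_mem (h1 i) _
  rw [← h] at h2
  have h3 : N • E.lift x ∈ (E.bc A (AlgebraicClosure K)).range := h2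
  obtain ⟨R, hR⟩ := E.mem_of_nsmul _ N hN h3
  have h4 : algebraMap K (AlgebraicClosure K) x ∈ A := by
    rw [← E.uu_lift x, ← hR, bc, E.uu_mp]
    exact (E.uu R).2
  have h5 : IsAlgebraic F₁ (algebraMap K (AlgebraicClosure K) x) := mem_algebraicClosure_iff.1 h4
  have h6 : IsAlgebraic F₁ x :=
    (isAlgebraic_algebraMap_iff (algebraMap K (AlgebraicClosure K)).injective).1 h5
  exact (IsFractionRing.isAlgebraic_iff (Algebra.adjoin Fa S) F₁ K).2 h6

end

end Cv

end Pool.Agent.N101.ZE
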